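import Pool.Agent.R130.Theon.Rank

/-!
# MP_ae8f8e_co, Q1: unique coupleability with all of `UCouple[ℓ]` forces rank at most `ℓ`
-/

open MeasureTheory ProbabilityTheory

namespace Pool.Agent.Results.MP_ae8f8e_co.RankOfUCouple

open Pool.Agent.R130.Theon

/-- For every `ℓ`, every universal theory `T` in a finite relational language and every limit
object `φ` of `T`: if `φ` is uniquely coupleable with every limit object (of every universal theory
in a finite relational language) that belongs to `UCouple[ℓ]`, then the rank of `φ` is at most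
`ℓ`. -/
theorem result (ℓ : ℕ) (L : FirstOrder.Language.{0, 0}) [L.IsRelational]
    [Finite (Σ n, L.Relations n)] (T : L.Theory) [T.IsUniversal] (φ : Measure (Str L))
    (hφ : IsLimit T φ)
    (h : ∀ (L' : FirstOrder.Language.{0, 0}) (_ : L'.IsRelational)
      (_ : Finite (Σ n, L'.Relations n)) (T' : L'.Theory) (_ : T'.IsUniversal)
      (ψ : Measure (Str L')), IsLimit T' ψ → UCouple T' ψ ℓ → UniquelyCoupleable T T' φ ψ) :
    RankLE T φ ℓ :=
  MP_ae8f8e ℓ L T φ hφ h

end Pool.Agent.Results.MP_ae8f8e_co.RankOfUCouple
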